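import Mathlib

namespace Pool.Agent.Results.MP_24ecc9_an.Counter

open Set Filter Metric Topology
open scoped ENNReal

section Defs

variable {X : Type} [MetricSpace X]

/-- Normal fuzzy sets: u.s.c. maps into `[0,1]` attaining `1`, with compact support. -/
def IsFuzzy (u : X → ℝ) : Prop :=
  (∀ x, 0 ≤ u x ∧ u x ≤ 1) ∧ UpperSemicontinuous u ∧ (∃ x, u x = 1) ∧
    IsCompact (closure {x | 0 < u x})

/-- Zadeh extension (the real `sSup ∅` is `0`). -/
noncomputable def zadeh (f : X → X) (u : X → ℝ) : X → ℝ := fun y => sSup (u '' (f ⁻¹' {y}))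

/-- The endograph `{(x,t) : 0 ≤ t ≤ u x}`. -/
def endo (u : X → ℝ) : Set (X × ℝ) := {p | 0 ≤ p.2 ∧ p.2 ≤ u p.1}

/-- The endograph metric. -/
noncomputable def dE (u v : X → ℝ) : ℝ≥0∞ := hausdorffEDist (endo u) (endo v)

/-- `(F(X), d_E, f̂)` has a dense proximal relation. -/
def FuzzyDenseProx (f : X → X) : Prop :=
  ∀ u v : X → ℝ, IsFuzzy u → IsFuzzy v → ∀ ε : ℝ≥0∞, 0 < ε → ∃ u' v' : X → ℝ,
    IsFuzzy u' ∧ IsFuzzy v' ∧ dE u u' < ε ∧ dE v v' < ε ∧
      liminf (fun n => dE ((zadeh f)^[n] u') ((zadeh f)^[n] v')) atTop = 0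

/-- `(K(X), d_H, f̄)` has a dense proximal relation. -/
def HyperDenseProx (f : X → X) : Prop :=
  ∀ K L : Set X, K.Nonempty → IsCompact K → L.Nonempty → IsCompact L → ∀ ε : ℝ≥0∞, 0 < ε →
    ∃ K' L' : Set X, K'.Nonempty ∧ IsCompact K' ∧ L'.Nonempty ∧ IsCompact L' ∧
      hausdorffEDist K K' < ε ∧ hausdorffEDist L L' < ε ∧
      liminf (fun n => hausdorffEDist ((image f)^[n] K') ((image f)^[n] L')) atTop = 0

def Rep {P : Type} (w : X → ℝ) (g : P → X) (φ : P → ℝ) : Prop :=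
  (∀ y, 0 ≤ w y ∧ w y ≤ 1) ∧ (∀ p, φ p ≤ w (g p)) ∧ ∀ y t, 0 ≤ t → t < w y → ∃ p, g p = y ∧ t < φ p

theorem rep_push {P : Type} (g : P → X) (φ : P → ℝ) (h : ∀ p, 0 ≤ φ p ∧ φ p ≤ 1) :
    Rep (fun y => sSup (φ '' (g ⁻¹' {y}))) g φ := by
  refine ⟨fun y => ⟨Real.sSup_nonneg ?_, Real.sSup_le ?_ zero_le_one⟩, fun p => ?_, fun y t h0 ht => ?_⟩
  · rintro _ ⟨p, _, rfl⟩; exact (h p).1
  · rintro _ ⟨p, _, rfl⟩; exact (h p).2
  · exact le_csSup ⟨1, by rintro _ ⟨p, _, rfl⟩; exact (h p).2⟩ ⟨p, rfl, rfl⟩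
  · rcases (φ '' (g ⁻¹' {y})).eq_empty_or_nonempty with e | e
    · simp only [e, Real.sSup_empty] at ht; linarith
    · obtain ⟨_, ⟨p, hp, rfl⟩, h'⟩ := exists_lt_of_lt_csSup e ht
      exact ⟨p, hp, h'⟩

theorem rep_iter {P : Type} {w : X → ℝ} {g : P → X} {φ : P → ℝ} (h : Rep w g φ) (f : X → X)
    (n : ℕ) : Rep ((zadeh f)^[n] w) (fun p => f^[n] (g p)) φ := by
  induction n with
  | zero => exact h
  | succ n ih =>
    simp only [Function.iterate_succ_apply']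
    obtain ⟨a1, a2, a3⟩ := rep_push f _ ih.1
    refine ⟨a1, fun p => (ih.2.1 p).trans (a2 _), fun y t h0 ht => ?_⟩
    obtain ⟨x, rfl, hx⟩ := a3 y t h0 ht
    obtain ⟨p, rfl, hp⟩ := ih.2.2 x t h0 hx
    exact ⟨p, rfl, hp⟩

theorem half {P Q : Type} {w w' : X → ℝ} {g : P → X} {φ : P → ℝ} {g' : Q → X} {φ' : Q → ℝ}
    (h : Rep w g φ) (h' : Rep w' g' φ') {δ : ℝ} (hδ : 0 < δ)
    (H : ∀ p, δ < φ p → ∃ q, dist (g p) (g' q) ≤ δ ∧ φ p - δ ≤ φ' q) :
    ∀ x ∈ endo w, ∃ y ∈ endo w', edist x y ≤ ENNReal.ofReal (2 * δ) := by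
  rintro ⟨y, t⟩ ⟨h0, h1⟩
  simp only at h0 h1
  by_cases ht : t ≤ 2 * δ
  · refine ⟨(y, 0), ⟨le_rfl, (h'.1 y).1⟩, ?_⟩
    rw [edist_dist, Prod.dist_eq]
    exact ENNReal.ofReal_le_ofReal (max_le (by simp; linarith)
      (by simp only [Real.dist_eq, sub_zero]; rw [abs_of_nonneg h0]; exact ht))
  · obtain ⟨p, rfl, hp⟩ := h.2.2 y (t - δ) (by linarith) (by linarith)
    obtain ⟨q, h2, h3⟩ := H p (by linarith)
    refine ⟨(g' q, t - 2 * δ), ⟨by simp only; linarith, by simp only; linarith [h'.2.1 q]⟩, ?_⟩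
    rw [edist_dist, Prod.dist_eq]
    exact ENNReal.ofReal_le_ofReal (max_le (by simp only; linarith)
      (by simp only [Real.dist_eq]; rw [abs_le]; constructor <;> linarith))

theorem fuzzy_push {P : Type} [TopologicalSpace P] [CompactSpace P] {w : X → ℝ} {g : P → X}
    {φ : P → ℝ} (h : Rep w g φ) (hg : Continuous g) (hφ : UpperSemicontinuous φ)
    (h1 : ∃ p, φ p = 1) : IsFuzzy w := by
  refine ⟨h.1, upperSemicontinuous_iff_isClosed_preimage.2 fun α => ?_, ?_, ?_⟩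
  · have : w ⁻¹' Ici α = ⋂ β ∈ Ico 0 α, g '' (φ ⁻¹' Ici β) := by
      ext y
      simp only [mem_preimage, mem_Ici, mem_iInter, mem_Ico]
      constructor
      · intro hy β hβ
        obtain ⟨p, hp, h'⟩ := h.2.2 y β hβ.1 (hβ.2.trans_le hy)
        exact ⟨p, h'.le, hp⟩
      · intro hy
        by_contra hc
        obtain ⟨β, b1, b2⟩ := exists_between (not_le.1 hc)
        obtain ⟨p, hp, rfl⟩ := hy β ⟨(h.1 _).1.trans b1.le, b2⟩
        exact absurd (le_trans hp (h.2.1 p)) (not_le.2 b1)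
    rw [this]
    exact isClosed_biInter fun β _ => ((hφ.isClosed_preimage β).isCompact.image hg).isClosed
  · obtain ⟨p, hp⟩ := h1
    exact ⟨g p, le_antisymm (h.1 _).2 (hp ▸ h.2.1 p)⟩
  · refine (isCompact_range hg).of_isClosed_subset isClosed_closure
      (closure_minimal (fun y hy => ?_) (isCompact_range hg).isClosed)
    obtain ⟨p, hp, _⟩ := h.2.2 y 0 le_rfl hy
    exact ⟨p, hp⟩

end Defs

noncomputable def tail (L : ℕ) (σ s : ℝ) (n : ℕ) : ℝ × ℝ :=
  (if (Nat.unpair (Nat.sqrt n)).1 = L then -1 else σ,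
    ((Nat.sqrt n : ℝ) + 1) ^ 2 * s - ((Nat.sqrt n : ℝ) + 1) * σ)

def Side (x : ℕ → ℝ × ℝ) (σ : ℝ) (L : ℕ) (s : ℝ) : Prop :=
  (∀ n, 1 ≤ n → (x n).1 = -1 ∨ (x n).1 = σ) ∧ |s| ≤ 1 ∧ ∀ n, L ≤ n → x n = tail L σ s n

def Valid (x : ℕ → ℝ × ℝ) : Prop := (∀ n, 1 ≤ n → (x n).1 ≤ 1) ∧
  ((x 0).1 ≤ 1 ∨ ∃ σ : ℝ, (σ = 0 ∨ σ = 1) ∧ (x 0).1 = 2 + σ ∧ ∃ L s, Side x σ L s)

def Sp : Type := {x : ℕ → ℝ × ℝ // Valid x}

noncomputable def dd (x y : Sp) : ℝ := ⨆ n : ℕ, min (1 / ((n : ℝ) + 1)) (dist (x.1 n) (y.1 n))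

theorem le_dd (x y : Sp) (n : ℕ) : min (1 / ((n : ℝ) + 1)) (dist (x.1 n) (y.1 n)) ≤ dd x y :=
  le_ciSup (f := fun n : ℕ => min (1 / ((n : ℝ) + 1)) (dist (x.1 n) (y.1 n)))
    ⟨1, by
      rintro _ ⟨n, rfl⟩
      exact (min_le_left _ _).trans ((div_le_one (by positivity)).2 (by simp))⟩ n

noncomputable instance : MetricSpace Sp where
  dist := dd
  dist_self x := by
    refine le_antisymm (ciSup_le fun n => by simp) (le_trans (by simp) (le_dd x x 0))
  dist_comm x y := by simp only [dd, dist_comm]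
  dist_triangle x y z := ciSup_le fun n => by
    have h1 := le_dd x y n
    have h2 := le_dd y z n
    have h3 := dist_triangle (x.1 n) (y.1 n) (z.1 n)
    have h4 : 0 ≤ dist (x.1 n) (y.1 n) := dist_nonneg
    have h5 : 0 ≤ dist (y.1 n) (z.1 n) := dist_nonneg
    have h6 : 0 < 1 / ((n : ℝ) + 1) := by positivity
    simp only [min_def] at h1 h2 ⊢
    split_ifs at h1 h2 ⊢ <;> linarith
  eq_of_dist_eq_zero {x y} h := Subtype.ext (funext fun n => by
    have h1 := le_dd x y n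
    have h6 : 0 < 1 / ((n : ℝ) + 1) := by positivity
    rw [show dd x y = 0 from h, min_le_iff] at h1
    exact dist_le_zero.1 (h1.resolve_left (not_le.2 h6)))

theorem d_le {x y : Sp} (R : ℕ) {c : ℝ} (hc : 1 / ((R : ℝ) + 1) ≤ c)
    (h : ∀ n < R, dist (x.1 n) (y.1 n) ≤ c) : dist x y ≤ c :=
  ciSup_le fun n => by
    rcases lt_or_ge n R with hn | hn
    · exact (min_le_right _ _).trans (h n hn)
    · refine (min_le_left _ _).trans (le_trans ?_ hc)
      have : (R : ℝ) ≤ n := by exact_mod_cast hn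
      gcongr

theorem coord (n : ℕ) : Continuous fun x : Sp => x.1 n := by
  refine Metric.continuous_iff.2 fun b ε hε => ⟨min (1 / ((n : ℝ) + 1)) ε, by positivity, fun a h => ?_⟩
  have := (le_dd a b n).trans_lt h
  rcases min_lt_iff.1 this with h1 | h1
  · exact absurd h1 (not_lt.2 (min_le_left _ _))
  · exact h1.trans_le (min_le_right _ _)

theorem cont {T : Type} [TopologicalSpace T] {g : T → Sp} (h : ∀ n, Continuous fun t => (g t).1 n) :
    Continuous g := by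
  refine continuous_iff_continuousAt.2 fun t => Metric.tendsto_nhds.2 fun ε hε => ?_
  obtain ⟨R, hR⟩ := exists_nat_one_div_lt (half_pos hε)
  have : ∀ᶠ a in 𝓝 t, ∀ n ∈ Finset.range R, dist ((g a).1 n) ((g t).1 n) < ε / 2 :=
    (Finset.eventually_all _).2 fun n _ => Metric.tendsto_nhds.1 (h n).continuousAt _ (half_pos hε)
  filter_upwards [this] with a ha
  exact (d_le R hR.le fun n hn => (ha n (Finset.mem_range.2 hn)).le).trans_lt (half_lt_self hε)

def sh (x : Sp) : Sp :=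
  ⟨fun n => x.1 (n + 1), fun n _ => x.2.1 _ (by omega), Or.inl (x.2.1 _ le_rfl)⟩

theorem sh_iter (n : ℕ) (x : Sp) (m : ℕ) : (sh^[n] x).1 m = x.1 (m + n) := by
  induction n generalizing m with
  | zero => rfl
  | succ n ih => rw [Function.iterate_succ_apply']; exact (ih (m + 1)).trans (congrArg x.1 (by omega))

noncomputable def sg (x : Sp) : ℝ := max 0 ((x.1 0).1 - 2)

theorem sg01 (x : Sp) : sg x = 0 ∨ sg x = 1 := by
  rcases x.2.2 with h | ⟨σ, h | h, e, _⟩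
  · exact Or.inl (max_eq_left (by linarith))
  · exact Or.inl (max_eq_left (by linarith))
  · right; unfold sg; rw [e, h]; norm_num

noncomputable def zz (L : ℕ) (x : Sp) (s : Icc (-1 : ℝ) 1) : Sp :=
  ⟨fun n => if n < L + 1 then x.1 n else tail (L + 1) (sg x) s n, by
    refine ⟨fun n hn => ?_, ?_⟩
    · dsimp only
      split_ifs
      · exact x.2.1 n hn
      · unfold tail; split_ifs <;> rcases sg01 x with h | h <;> simp [h]
    · rcases x.2.2 with h | ⟨σ, h, e, L', s', h1, _⟩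
      · left; simpa using h
      · have e2 : sg x = σ := by unfold sg; rw [e]; rcases h with h | h <;> simp [h]
        refine Or.inr ⟨σ, h, by simpa using e, L + 1, s, fun n hn => ?_, abs_le.2 s.2,
          fun n hn => by simp only [e2, if_neg (not_lt.2 hn)]⟩
        simp only
        split_ifs
        · exact h1 n hn
        · unfold tail; split_ifs <;> simp [e2]⟩

abbrev PP (u : Sp → ℝ) : Type := closure {x | 0 < u x} × Icc (-1 : ℝ) 1

noncomputable def ph (u : Sp → ℝ) (p : PP u) : ℝ := min (u p.1) (1 - |p.2.1|)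

theorem approx {u : Sp → ℝ} (hu : IsFuzzy u) (L : ℕ) : ∃ u', IsFuzzy u' ∧
    Rep u' (fun p : PP u => zz L p.1 p.2) (ph u) ∧
    dE u u' ≤ ENNReal.ofReal (2 * (1 / ((L + 1 : ℕ) + 1))) := by
  have hr := rep_push (fun p : PP u => zz L p.1 p.2) (ph u) fun p =>
    ⟨le_min (hu.1 _).1 (sub_nonneg.2 (abs_le.2 p.2.2)), (min_le_left _ _).trans (hu.1 _).2⟩
  have : CompactSpace (closure {x | 0 < u x}) := isCompact_iff_compactSpace.1 hu.2.2.2
  have r0 : Rep u id u := ⟨hu.1, fun _ => le_rfl, fun y t _ h => ⟨y, rfl, h⟩⟩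
  have hd : ∀ x s, dist x (zz L x s) ≤ 1 / ((L + 1 : ℕ) + 1) := fun x s =>
    d_le (L + 1) le_rfl fun n hn => by simp only [zz, if_pos hn, dist_self]; positivity
  have hδ : (0 : ℝ) < 1 / ((L + 1 : ℕ) + 1) := by positivity
  refine ⟨_, fuzzy_push hr (cont fun n => ?_) ?_ ?_, hr,
    hausdorffEDist_le_of_mem_edist (half r0 hr hδ fun x hx => ?_) (half hr r0 hδ fun p _ => ?_)⟩
  · have c1 : ∀ m, Continuous fun p : PP u => p.1.1.1 m := fun m =>
      (coord m).comp (continuous_subtype_val.comp continuous_fst)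
    have c2 : Continuous fun p : PP u => sg p.1.1 :=
      continuous_const.max ((c1 0).fst.sub continuous_const)
    have c3 : Continuous fun p : PP u => p.2.1 := continuous_subtype_val.comp continuous_snd
    simp only [zz, tail]
    split_ifs
    · exact c1 n
    · exact continuous_const.prodMk ((c3.const_mul _).sub (c2.const_mul _))
    · exact c2.prodMk ((c3.const_mul _).sub (c2.const_mul _))
  · refine upperSemicontinuous_iff_isClosed_preimage.2 fun α => ?_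
    have : ph u ⁻¹' Ici α = (fun p : PP u => p.1.1) ⁻¹' (u ⁻¹' Ici α) ∩ {p | α ≤ 1 - |p.2.1|} := by
      ext p; simp [ph]
    rw [this]
    exact ((hu.2.1.isClosed_preimage α).preimage (by fun_prop)).inter
      (isClosed_le continuous_const (by fun_prop))
  · obtain ⟨x, hx⟩ := hu.2.2.1
    exact ⟨(⟨x, subset_closure (by simp [hx])⟩, ⟨0, by simp⟩), by simp [ph, hx]⟩
  · refine ⟨(⟨x, subset_closure (hδ.trans hx)⟩, ⟨0, by simp⟩), hd _ _, ?_⟩
    simp only [ph, abs_zero, sub_zero, min_eq_left (hu.1 x).2]; linarith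
  · exact ⟨p.1, dist_comm (p.1 : Sp) _ ▸ hd _ _, by linarith [min_le_left (u p.1) (1 - |p.2.1|), show ph u p = min (u p.1) (1 - |p.2.1|) from rfl]⟩

theorem mtch {u v : Sp → ℝ} (hv : IsFuzzy v) (L i : ℕ) (p : PP u)
    (hp : 1 / ((Nat.pair (L + 1) i : ℝ) + 1) < ph u p) : ∃ q : PP v,
    dist (sh^[Nat.pair (L + 1) i * Nat.pair (L + 1) i] (zz L p.1 p.2))
      (sh^[Nat.pair (L + 1) i * Nat.pair (L + 1) i] (zz L q.1 q.2))
      ≤ 1 / ((Nat.pair (L + 1) i : ℝ) + 1) ∧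
    ph u p - 1 / ((Nat.pair (L + 1) i : ℝ) + 1) ≤ ph v q := by
  set j := Nat.pair (L + 1) i with hj
  obtain ⟨y, hy⟩ := hv.2.2.1
  have k0 : (0 : ℝ) < (j : ℝ) + 1 := by positivity
  have h1 : ph u p ≤ 1 - |p.2.1| := min_le_right _ _
  have h2 : |p.2.1 + (sg y - sg p.1) / (j + 1)| ≤ |p.2.1| + 1 / (j + 1) := by
    refine (abs_add_le _ _).trans (add_le_add le_rfl ?_)
    rw [abs_div, abs_of_pos k0]
    refine div_le_div_of_nonneg_right ?_ k0.le
    rcases sg01 y with a | a <;> rcases sg01 p.1 with b | b <;> simp [a, b]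
  refine ⟨(⟨y, subset_closure (by simp [hy])⟩, ⟨p.2.1 + (sg y - sg p.1) / (j + 1),
    abs_le.1 (by linarith)⟩), d_le j le_rfl fun n hn => ?_, ?_⟩
  · have a1 : L + 1 ≤ j := Nat.left_le_pair _ _
    have a2 : ¬ n + j * j < L + 1 := by nlinarith
    have a3 : Nat.sqrt (n + j * j) = j := by rw [add_comm]; exact Nat.sqrt_add_eq j (by omega)
    have a4 : (Nat.unpair j).1 = L + 1 := by rw [hj, Nat.unpair_pair]
    rw [sh_iter, sh_iter]
    simp only [zz, if_neg a2, tail, a3, a4, if_true]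
    rw [show ((j : ℝ) + 1) ^ 2 * (p.2.1 + (sg y - sg p.1) / (j + 1)) - (j + 1) * sg y
      = ((j : ℝ) + 1) ^ 2 * p.2.1 - (j + 1) * sg p.1 by field_simp; ring, dist_self]
    positivity
  · refine le_min ?_ ?_
    · simp only [hy]; linarith [abs_nonneg p.2.1, one_div_pos.2 k0]
    · simp only; linarith

theorem fz : FuzzyDenseProx sh := by
  intro u v hu hv ε hε
  have lim : Tendsto (fun n : ℕ => ENNReal.ofReal (2 * (1 / ((n : ℝ) + 1)))) atTop (𝓝 0) := by
    simpa using ENNReal.tendsto_ofReal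
      ((tendsto_one_div_add_atTop_nhds_zero_nat (𝕜 := ℝ)).const_mul 2)
  obtain ⟨L, hL⟩ := eventually_atTop.1 (lim.eventually (gt_mem_nhds hε))
  obtain ⟨u', a1, a2, a3⟩ := approx hu L
  obtain ⟨v', b1, b2, b3⟩ := approx hv L
  refine ⟨u', v', a1, b1, a3.trans_lt (hL _ L.le_succ), b3.trans_lt (hL _ L.le_succ),
    le_antisymm (le_of_forall_gt_imp_ge_of_dense fun η hη => ?_) bot_le⟩
  obtain ⟨N, hN⟩ := eventually_atTop.1 (lim.eventually (gt_mem_nhds hη))
  refine liminf_le_of_frequently_le' (frequently_atTop.2 fun M => ?_)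
  have c1 := Nat.right_le_pair (L + 1) (M + N)
  refine ⟨Nat.pair (L + 1) (M + N) * Nat.pair (L + 1) (M + N), by nlinarith, ?_⟩
  refine le_trans ?_ (hN (Nat.pair (L + 1) (M + N)) (by omega)).le
  exact hausdorffEDist_le_of_mem_edist
    (half (rep_iter a2 sh _) (rep_iter b2 sh _) (by positivity) (mtch hv L _))
    (half (rep_iter b2 sh _) (rep_iter a2 sh _) (by positivity) (mtch hu L _))

noncomputable def pt (σ : ℝ) (h : σ = 0 ∨ σ = 1) : Sp :=
  ⟨fun n => if n < 1 then (2 + σ, 0) else tail 1 σ 0 n, by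
    refine ⟨fun n hn => ?_, Or.inr ⟨σ, h, by simp, 1, 0, fun n hn => ?_, by simp,
      fun n hn => if_neg (not_lt.2 hn)⟩⟩
    · simp only [if_neg (not_lt.2 hn)]; unfold tail; split_ifs <;> rcases h with h | h <;> simp [h]
    · simp only [if_neg (not_lt.2 hn)]; unfold tail; split_ifs <;> simp⟩

theorem c0 {x y : Sp} (h : edist x y < ENNReal.ofReal (1 / 2)) :
    |(x.1 0).1 - (y.1 0).1| < 1 / 2 ∧ |(x.1 0).2 - (y.1 0).2| < 1 / 2 := by
  have h1 := (le_dd x y 0).trans_lt (edist_lt_ofReal.1 h)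
  have h2 : dist (x.1 0) (y.1 0) < 1 / 2 := (min_lt_iff.1 h1).resolve_left (by norm_num)
  rw [Prod.dist_eq, max_lt_iff] at h2
  exact h2

theorem near {σ : ℝ} (h : σ = 0 ∨ σ = 1) {A : Set Sp}
    (hA : hausdorffEDist {pt σ h} A < ENNReal.ofReal (1 / 2)) (x : A) :
    ∃ L s, Side x.1.1 σ L s := by
  rw [hausdorffEDist_comm] at hA
  obtain ⟨_, rfl, h1⟩ := exists_edist_lt_of_hausdorffEDist_lt x.2 hA
  have h2 := abs_lt.1 (c0 h1).1
  have h3 : ((pt σ h).1 0).1 = 2 + σ := by simp [pt]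
  rw [h3] at h2
  rcases x.1.2.2 with h4 | ⟨τ, h4, e, h5⟩
  · rcases h with h | h <;> linarith [h2.1]
  · have : τ = σ := by
      rcases h with h | h <;> rcases h4 with h4 | h4 <;> linarith [h2.1, h2.2]
    exact this ▸ h5

theorem nhy : ¬ HyperDenseProx sh := by
  intro H
  have hε : 0 < ENNReal.ofReal (1 / 2) := by simp
  obtain ⟨A, B, ⟨a, ha⟩, -, ⟨b, hb⟩, -, hA, hB, hl⟩ := H {pt 0 (Or.inl rfl)} {pt 1 (Or.inr rfl)}
    (singleton_nonempty _) isCompact_singleton (singleton_nonempty _) isCompact_singleton _ hε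
  choose LA sA hA using near _ hA
  choose LB sB hB using near _ hB
  rw [← hl] at hε
  have fr := frequently_atTop.1 (frequently_lt_of_liminf_lt (by isBoundedDefault) hε)
  have im : ∀ (n : ℕ) (S : Set Sp), (image sh)^[n] S = sh^[n] '' S := fun n S => by
    induction n with
    | zero => simp
    | succ n ih => simp only [Function.iterate_succ_apply', ih, image_image]
  simp only [im] at fr
  have : Nonempty A := ⟨⟨a, ha⟩⟩
  have : Nonempty B := ⟨⟨b, hb⟩⟩
  have fr2 : ∀ N, ∃ n, N ≤ n ∧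
      (∀ x : A, (x.1.1 n).1 = -1 ∧ ∃ y : B, |(x.1.1 n).2 - (y.1.1 n).2| < 1 / 2) ∧
      (∀ y : B, (y.1.1 n).1 = -1 ∧ ∃ x : A, |(y.1.1 n).2 - (x.1.1 n).2| < 1 / 2) := fun N => by
    obtain ⟨n, hn, h⟩ := fr (N + 1)
    refine ⟨n, by omega, fun x => ?_, fun y => ?_⟩
    · obtain ⟨_, ⟨y, hy, rfl⟩, h1⟩ := exists_edist_lt_of_hausdorffEDist_lt (mem_image_of_mem _ x.2) h
      have h2 := c0 h1
      simp only [sh_iter, zero_add] at h2
      refine ⟨?_, ⟨y, hy⟩, h2.2⟩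
      have h3 := abs_lt.1 h2.1
      rcases (hA x).1 n (by omega) with e | e
      · exact e
      · rcases (hB ⟨y, hy⟩).1 n (by omega) with e' | e' <;> simp only at e' <;> linarith [h3.1, h3.2]
    · rw [hausdorffEDist_comm] at h
      obtain ⟨_, ⟨x, hx, rfl⟩, h1⟩ := exists_edist_lt_of_hausdorffEDist_lt (mem_image_of_mem _ y.2) h
      have h2 := c0 h1
      simp only [sh_iter, zero_add] at h2
      refine ⟨?_, ⟨x, hx⟩, h2.2⟩
      have h3 := abs_lt.1 h2.1
      rcases (hB y).1 n (by omega) with e | e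
      · exact e
      · rcases (hA ⟨x, hx⟩).1 n (by omega) with e' | e' <;> simp only at e' <;> linarith [h3.1, h3.2]
  have lab : ∀ {x σ L s n}, 0 ≤ σ → Side x σ L s → L ≤ n → (x n).1 = -1 →
      (Nat.unpair (Nat.sqrt n)).1 = L := fun {x σ L s n} h0 h hn e => by
    by_contra hc
    rw [h.2.2 n hn] at e
    simp only [tail, if_neg hc] at e
    linarith
  have eA : ∀ x, LA x = LA ⟨a, ha⟩ := fun x => by
    obtain ⟨n, hn, h1, -⟩ := fr2 (LA x + LA ⟨a, ha⟩)
    exact (lab le_rfl (hA x) (by omega) (h1 x).1).symm.trans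
      (lab le_rfl (hA _) (by omega) (h1 _).1)
  have eB : ∀ y, LB y = LA ⟨a, ha⟩ := fun y => by
    obtain ⟨n, hn, h1, h2⟩ := fr2 (LB y + LA ⟨a, ha⟩)
    exact (lab zero_le_one (hB y) (by omega) (h2 y).1).symm.trans
      (lab le_rfl (hA _) (by omega) (h1 _).1)
  have bA : BddAbove (range sA) := ⟨1, by rintro _ ⟨x, rfl⟩; exact (abs_le.1 (hA x).2.1).2⟩
  have bB : BddAbove (range sB) := ⟨1, by rintro _ ⟨x, rfl⟩; exact (abs_le.1 (hB x).2.1).2⟩
  have key : ∀ N : ℕ, ∃ k : ℝ, N < k ∧ 1 / (2 * k) ≤ iSup sB - iSup sA ∧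
      iSup sB - iSup sA ≤ 2 / k := fun N => by
    obtain ⟨n, hn, h1, h2⟩ := fr2 (LA ⟨a, ha⟩ + N * N)
    have k1 : N ≤ Nat.sqrt n := Nat.le_sqrt.2 (by omega)
    set k : ℝ := Nat.sqrt n + 1 with hk
    have k2 : 1 ≤ k := by rw [hk]; simp
    have wA : ∀ x : A, (x.1.1 n).2 = k ^ 2 * sA x := fun x => by
      rw [(hA x).2.2 n (by rw [eA]; omega)]; simp [tail, hk]
    have wB : ∀ y : B, (y.1.1 n).2 = k ^ 2 * sB y - k := fun y => by
      rw [(hB y).2.2 n (by rw [eB]; omega)]; simp [tail, hk]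
    refine ⟨k, by rw [hk]; exact_mod_cast Nat.lt_succ_of_le k1, ?_, ?_⟩
    · have : iSup sA ≤ iSup sB - 1 / (2 * k) := ciSup_le fun x => by
        obtain ⟨y, hy⟩ := (h1 x).2
        rw [wA, wB] at hy
        have : 1 / (2 * k) ≤ sB y - sA x := by
          rw [div_le_iff₀ (by positivity)]
          by_contra hc
          nlinarith [(abs_lt.1 hy).2, not_le.1 hc]
        linarith [le_ciSup bB y]
      linarith
    · have : iSup sB ≤ iSup sA + 2 / k := ciSup_le fun y => by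
        obtain ⟨x, hx⟩ := (h2 y).2
        rw [wA, wB] at hx
        have : sB y - sA x ≤ 2 / k := by
          rw [le_div_iff₀ (by positivity)]
          by_contra hc
          nlinarith [(abs_lt.1 hx).2, not_le.1 hc]
        linarith [le_ciSup bA x]
      linarith
  obtain ⟨k, k0, h1, -⟩ := key 0
  have c : 0 < iSup sB - iSup sA := lt_of_lt_of_le (by simp at k0; positivity) h1
  obtain ⟨N, hN⟩ := exists_nat_gt (2 / (iSup sB - iSup sA))
  obtain ⟨k', k1, -, h2⟩ := key N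
  have k2 : 0 < k' := lt_of_le_of_lt (Nat.cast_nonneg N) k1
  rw [div_lt_iff₀ c] at hN
  rw [le_div_iff₀ k2] at h2
  nlinarith

theorem result : ∃ (X : Type) (_ : MetricSpace X) (f : X → X),
    Continuous f ∧ FuzzyDenseProx f ∧ ¬ HyperDenseProx f :=
  ⟨Sp, inferInstance, sh, cont fun n => coord (n + 1), fz, nhy⟩

end Pool.Agent.Results.MP_24ecc9_an.Counter
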